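import Pool.Agent.H37.CNR.Stmts

/-!
Board cnr (helper37, MP_b57703_ag), row FNL.
-/

set_option autoImplicit false

namespace Pool.CND

theorem FNL_ps {k : Type} [Field k] {p : ℕ} (hp : p.Prime) [CharP k p] (f : PowerSeries k)
    (m : ℕ) : PowerSeries.coeff m (f ^ p) =
      if p ∣ m then (PowerSeries.coeff (m / p) f) ^ p else 0 := by
  have := Fact.mk hp
  have h : f ^ p = PowerSeries.map (frobenius k p) (PowerSeries.expand p hp.ne_zero f) :=
    (MvPowerSeries.map_frobenius_expand p hp.ne_zero).symm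
  rw [h, PowerSeries.coeff_map, PowerSeries.coeff_expand]
  split_ifs
  · rw [frobenius_def]
  · rw [map_zero]

theorem FNL_pow {k : Type} [Field k] (p : ℕ) (w : LaurentSeries k) :
    w ^ p = HahnSeries.single (p • w.order) 1 *
      HahnSeries.ofPowerSeries ℤ k (LaurentSeries.powerSeriesPart w ^ p) := by
  conv_lhs => rw [← LaurentSeries.single_order_mul_powerSeriesPart w]
  rw [mul_pow, HahnSeries.single_pow, one_pow, map_pow]

theorem FNL_coeff {k : Type} [Field k] (w : LaurentSeries k) (n : ℤ) :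
    w.coeff n = if n - w.order < 0 then 0 else
      PowerSeries.coeff (n - w.order).natAbs (LaurentSeries.powerSeriesPart w) := by
  conv_lhs => rw [← LaurentSeries.single_order_mul_powerSeriesPart w]
  rw [HahnSeries.coeff_single_mul, one_mul, PowerSeries.coeff_coe]

theorem FNL_mul {k : Type} [Field k] {p : ℕ} (hp : p.Prime) [CharP k p] (w : LaurentSeries k)
    (n : ℤ) : (w ^ p).coeff ((p : ℤ) * n) = (w.coeff n) ^ p := by
  have hp0 : (0 : ℤ) < p := by exact_mod_cast hp.pos
  rw [FNL_pow, HahnSeries.coeff_single_mul, one_mul, PowerSeries.coeff_coe, FNL_coeff w n]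
  have e1 : (p : ℤ) * n - p • w.order = (p : ℤ) * (n - w.order) := by
    rw [nsmul_eq_mul]
    ring
  rw [e1]
  by_cases h : n - w.order < 0
  · rw [if_pos h, if_pos (mul_neg_of_pos_of_neg hp0 h), zero_pow hp.ne_zero]
  · obtain ⟨m, hm⟩ := Int.eq_ofNat_of_zero_le (not_lt.1 h)
    rw [hm, if_neg (not_lt.2 (by positivity)), if_neg (not_lt.2 (by positivity)), FNL_ps hp]
    have e2 : ((p : ℤ) * (m : ℤ)).natAbs = p * m := by
      rw [Int.natAbs_mul, Int.natAbs_natCast, Int.natAbs_natCast]
    rw [e2, if_pos (dvd_mul_right p m), Nat.mul_div_cancel_left _ hp.pos, Int.natAbs_natCast]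

theorem FNL_not {k : Type} [Field k] {p : ℕ} (hp : p.Prime) [CharP k p] (w : LaurentSeries k)
    (n : ℤ) (hn : ¬ (p : ℤ) ∣ n) : (w ^ p).coeff n = 0 := by
  rw [FNL_pow, HahnSeries.coeff_single_mul, one_mul, PowerSeries.coeff_coe]
  split_ifs with h
  · rfl
  · rw [FNL_ps hp, if_neg]
    intro hd
    apply hn
    have h1 : (p : ℤ) ∣ n - p • w.order := by
      rw [← Int.natAbs_dvd_natAbs, Int.natAbs_natCast]
      exact hd
    have h2 : (p : ℤ) ∣ p • w.order := by
      rw [nsmul_eq_mul]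
      exact dvd_mul_right _ _
    have h3 := dvd_add h1 h2
    rwa [sub_add_cancel] at h3

/-- The polynomials of the recursion. -/
noncomputable def FNL_Q {k : Type} [Field k] (p : ℕ) (x : ℕ → k) : ℕ → Polynomial k
  | 0 => -(Polynomial.C (x 0) * Polynomial.X)
  | i + 1 => FNL_Q p x i ^ p - Polynomial.C (x (i + 1)) * Polynomial.X

theorem FNL_Q_ne {k : Type} [Field k] {p : ℕ} (hp : p.Prime) [CharP k p] (x : ℕ → k) (e : ℕ)
    (hx : x e ≠ 0) : FNL_Q p x e ≠ 0 := by
  intro h
  have h1 := congrArg Polynomial.derivative h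
  cases e with
  | zero =>
    simp only [FNL_Q, Polynomial.derivative_neg, Polynomial.derivative_mul,
      Polynomial.derivative_C, Polynomial.derivative_X, zero_mul, zero_add, mul_one,
      Polynomial.derivative_zero, neg_eq_zero, Polynomial.C_eq_zero] at h1
    exact hx h1
  | succ e =>
    simp only [FNL_Q, Polynomial.derivative_sub, Polynomial.derivative_mul,
      Polynomial.derivative_C, Polynomial.derivative_X, zero_mul, zero_add, mul_one,
      Polynomial.derivative_zero, Polynomial.derivative_pow, CharP.cast_eq_zero, map_zero,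
      zero_sub, neg_eq_zero, Polynomial.C_eq_zero] at h1
    exact hx h1

theorem fnl_thm : S_FNL := by
  intro p k _ ξ hp hchar hξ hord
  have := Fact.mk hp
  have := hchar
  obtain ⟨N, hN⟩ : ∃ N : ℕ, ξ.order = -(N : ℤ) :=
    ⟨ξ.order.natAbs, by omega⟩
  have hN0 : N ≠ 0 := by
    rintro rfl
    simp at hN
    omega
  obtain ⟨e, j, hj, hNe⟩ := Nat.exists_eq_pow_mul_and_not_dvd hN0 p hp.ne_one
  let x : ℕ → k := fun i => ξ.coeff (-((j * p ^ i : ℕ) : ℤ))
  have hxe : x e ≠ 0 := by
    show ξ.coeff (-((j * p ^ e : ℕ) : ℤ)) ≠ 0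
    rw [mul_comm, ← hNe, ← hN]
    exact HahnSeries.coeff_order_eq_zero.not.2 hξ
  apply Set.Finite.subset (Polynomial.finite_setOfPred_isRoot (FNL_Q_ne hp x e hxe))
  rintro α ⟨w, hw⟩
  have hc : ∀ n : ℤ, (w ^ p).coeff n - w.coeff n = α * ξ.coeff n := by
    intro n
    have h1 := congrArg (fun s : LaurentSeries k => s.coeff n) hw
    simpa using h1
  have hQ : ∀ i : ℕ, w.coeff (-((j * p ^ i : ℕ) : ℤ)) = (FNL_Q p x i).eval α := by
    intro i
    induction i with
    | zero =>
      have h1 := hc (-((j * p ^ 0 : ℕ) : ℤ))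
      rw [FNL_not hp w _ (by
        rw [pow_zero, mul_one, dvd_neg, Int.natCast_dvd_natCast]
        exact hj)] at h1
      have h2 : (FNL_Q p x 0).eval α = -(x 0 * α) := by
        simp [FNL_Q]
      rw [h2]
      have h3 : x 0 = ξ.coeff (-((j * p ^ 0 : ℕ) : ℤ)) := rfl
      rw [h3]
      linear_combination -h1
    | succ i ih =>
      have h1 := hc (-((j * p ^ (i + 1) : ℕ) : ℤ))
      have e1 : (-((j * p ^ (i + 1) : ℕ) : ℤ)) = (p : ℤ) * (-((j * p ^ i : ℕ) : ℤ)) := by
        push_cast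
        ring
      have h0 : (w ^ p).coeff (-((j * p ^ (i + 1) : ℕ) : ℤ)) =
          (w.coeff (-((j * p ^ i : ℕ) : ℤ))) ^ p := by
        rw [e1, FNL_mul hp]
      rw [h0, ih] at h1
      have h2 : (FNL_Q p x (i + 1)).eval α = ((FNL_Q p x i).eval α) ^ p - x (i + 1) * α := by
        simp [FNL_Q]
      rw [h2]
      have h3 : x (i + 1) = ξ.coeff (-((j * p ^ (i + 1) : ℕ) : ℤ)) := rfl
      rw [h3]
      linear_combination -h1
  show (FNL_Q p x e).eval α = 0
  rw [← hQ e, mul_comm j, ← hNe, ← hN]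
  by_cases hw0 : w = 0
  · rw [hw0]
    rfl
  · by_cases ho : 0 ≤ w.order
    · exact HahnSeries.coeff_eq_zero_of_lt_order (lt_of_lt_of_le hord ho)
    · push Not at ho
      apply HahnSeries.coeff_eq_zero_of_lt_order
      have hp1 : (1 : ℤ) < p := by exact_mod_cast hp.one_lt
      have hlt : (p : ℤ) * w.order < w.order := by nlinarith
      have h1 := hc ((p : ℤ) * w.order)
      rw [FNL_mul hp, HahnSeries.coeff_eq_zero_of_lt_order hlt, sub_zero] at h1
      have h2 : α * ξ.coeff ((p : ℤ) * w.order) ≠ 0 := by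
        rw [← h1]
        exact pow_ne_zero _ (HahnSeries.coeff_order_eq_zero.not.2 hw0)
      have h3 := HahnSeries.order_le_of_coeff_ne_zero (right_ne_zero_of_mul h2)
      omega

end Pool.CND
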